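import Pool.Agent.H.MP_b46d52_pr.Defs

set_option linter.unusedSimpArgs false

open Complex MeasureTheory Filter Topology Set
open scoped ComplexConjugate

namespace Pool.Agent.H.MP_b46d52_pr

lemma integrable_of_sq {f : ℝ → ℂ} (hf : Continuous f) {C : ℝ}
    (h : ∀ t, ‖f t‖ ≤ C * (1 + t ^ 2)⁻¹) : Integrable f :=
  (integrable_inv_one_add_sq.const_mul C).mono' hf.aestronglyMeasurable (Eventually.of_forall h)

lemma shift {f : ℂ → ℂ} {a b C : ℝ} (hab : a ≤ b)
    (hf : DifferentiableOn ℂ f {w | a ≤ w.im ∧ w.im ≤ b})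
    (h : ∀ t y : ℝ, a ≤ y → y ≤ b → ‖f (t + y * I)‖ ≤ C * (1 + t ^ 2)⁻¹) :
    ∫ t : ℝ, f (t + a * I) = ∫ t : ℝ, f (t + b * I) := by
  have hc : ∀ y : ℝ, a ≤ y → y ≤ b → Integrable fun t : ℝ => f (t + y * I) := fun y h1 h2 =>
    integrable_of_sq (hf.continuousOn.comp_continuous (by fun_prop) fun t => by simp [h1, h2])
      fun t => h t y h1 h2
  have h1 := (intervalIntegral_tendsto_integral (hc a le_rfl hab) tendsto_neg_atTop_atBot
    tendsto_id).sub (intervalIntegral_tendsto_integral (hc b hab le_rfl) tendsto_neg_atTop_atBot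
    tendsto_id)
  have h2 : ∀ T : ℝ, ‖∫ y : ℝ in a..b, f (T + y * I)‖ ≤ C * (1 + T ^ 2)⁻¹ * |b - a| := fun T =>
    intervalIntegral.norm_integral_le_of_norm_le_const fun y hy => by
      rw [uIoc_of_le hab] at hy
      exact h T y hy.1.le hy.2
  have h3 : Tendsto (fun T : ℝ => 2 * (C * (1 + T ^ 2)⁻¹ * |b - a|)) atTop (𝓝 0) := by
    have : Tendsto (fun T : ℝ => (1 + T ^ 2)⁻¹) atTop (𝓝 0) :=
      tendsto_inv_atTop_zero.comp (tendsto_atTop_add_const_left _ _ (tendsto_pow_atTop two_ne_zero))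
    simpa using ((this.const_mul C).mul_const |b - a|).const_mul 2
  refine sub_eq_zero.1 (tendsto_nhds_unique h1 (squeeze_zero_norm (fun T => ?_) h3))
  have h4 := integral_boundary_rect_eq_zero_of_differentiableOn f ((-T : ℝ) + a * I) (T + b * I)
    (hf.mono fun w hw => by
      have := (mem_reProdIm.1 hw).2
      simpa [uIcc_of_le hab] using this)
  simp only [add_re, ofReal_re, mul_re, I_re, mul_zero, ofReal_im, I_im, mul_one, sub_self,
    add_zero, add_im, mul_im, zero_add, smul_eq_mul] at h4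
  have h5 := h2 T
  have h6 := h2 (-T)
  rw [neg_sq] at h6
  rw [show (∫ x in -T..id T, f (x + a * I)) - ∫ x in -T..id T, f (x + b * I)
    = I * (∫ y : ℝ in a..b, f ((-T : ℝ) + y * I)) - I * ∫ y : ℝ in a..b, f (T + y * I) by
      simp only [id]; linear_combination h4]
  refine (norm_sub_le _ _).trans ?_
  simp only [norm_mul, norm_I, one_mul]
  linarith

lemma gauss_le {m b : ℝ} (hm : 0 < m) (t : ℝ) :
    Real.exp (-m * t ^ 2 + b * |t|) ≤ Real.exp (b ^ 2 / (2 * m)) * (1 + 2 / m) * (1 + t ^ 2)⁻¹ := by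
  have h1 : -m * t ^ 2 + b * |t| ≤ b ^ 2 / (2 * m) + -(m / 2 * t ^ 2) := by
    have h2 : 0 ≤ (m * |t| - b) ^ 2 / (2 * m) := by positivity
    have h3 : (m * |t| - b) ^ 2 / (2 * m) = m / 2 * t ^ 2 - b * |t| + b ^ 2 / (2 * m) := by
      rw [← sq_abs t]
      field_simp
      ring
    linarith
  refine (Real.exp_le_exp.2 h1).trans ?_
  rw [Real.exp_add, mul_assoc]
  refine mul_le_mul_of_nonneg_left ?_ (Real.exp_pos _).le
  rw [Real.exp_neg, ← div_eq_mul_inv, le_div_iff₀ (by positivity), inv_mul_le_iff₀ (Real.exp_pos _)]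
  have h4 := Real.add_one_le_exp (m / 2 * t ^ 2)
  have h5 : 1 + t ^ 2 ≤ (m / 2 * t ^ 2 + 1) * (1 + 2 / m) := by
    have : (m / 2 * t ^ 2 + 1) * (1 + 2 / m) = 1 + t ^ 2 + (m / 2 * t ^ 2 + 2 / m) := by
      field_simp
      ring
    rw [this]
    have : 0 ≤ m / 2 * t ^ 2 + 2 / m := by positivity
    linarith
  exact h5.trans (mul_le_mul_of_nonneg_right h4 (by positivity))

noncomputable def EE (η : ℂ) (z : ℂ) (τ : ℝ) : ℂ := cexp ((η + τ * I) ^ 3 / 3 - z * (η + τ * I))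

lemma norm_EE (η : ℝ) (z : ℂ) (τ : ℝ) :
    ‖EE η z τ‖ = Real.exp (η ^ 3 / 3 - η * z.re - η * τ ^ 2 + τ * z.im) := by
  rw [EE, norm_exp]
  congr 1
  simp [pow_succ]
  ring

noncomputable def AA (k : ℕ) (z : ℂ) : ℂ := ∫ τ : ℝ, (1 + τ * I) ^ k * EE 1 z τ

lemma Ai_eq (z : ℂ) : Ai z = (2 * Real.pi : ℂ)⁻¹ * AA 0 z := by simp [Ai, AA, EE]

noncomputable def KK (k : ℕ) (B : ℝ) : ℝ := Real.exp (k + 1) * (Real.exp ((k + B) ^ 2 / 2) * 3)

lemma bound_AA (k : ℕ) {z : ℂ} {B : ℝ} (hB : |z.im| ≤ B) (τ : ℝ) :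
    ‖(1 + τ * I) ^ k * EE 1 z τ‖ ≤ Real.exp (-z.re) * KK k B * (1 + τ ^ 2)⁻¹ := by
  have h1 : ‖(1 + τ * I : ℂ)‖ ≤ Real.exp (1 + |τ|) := by
    refine (norm_add_le _ _).trans ?_
    simp only [norm_one, norm_mul, norm_real, norm_I, mul_one, Real.norm_eq_abs]
    linarith [Real.add_one_le_exp (1 + |τ|)]
  have h2 := norm_EE 1 z τ
  rw [ofReal_one] at h2
  have h3 := gauss_le (m := 1) (b := k + B) one_pos τ
  have h4 : τ * z.im ≤ B * |τ| := by
    rw [mul_comm B]
    exact (le_abs_self _).trans (abs_mul τ z.im ▸ mul_le_mul_of_nonneg_left hB (abs_nonneg _))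
  rw [norm_mul, norm_pow, h2]
  calc _ ≤ Real.exp (1 + |τ|) ^ k * Real.exp (1 ^ 3 / 3 - 1 * z.re - 1 * τ ^ 2 + τ * z.im) := by
        gcongr
    _ ≤ Real.exp (-z.re) * Real.exp (k + 1) * Real.exp (-1 * τ ^ 2 + (k + B) * |τ|) := by
        rw [← Real.exp_nat_mul, ← Real.exp_add, ← Real.exp_add, ← Real.exp_add, Real.exp_le_exp]
        linarith
    _ ≤ _ := by
        rw [KK]
        refine (mul_le_mul_of_nonneg_left h3 (by positivity)).trans (le_of_eq ?_)
        norm_num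
        ring

lemma cont_AA (k : ℕ) (z : ℂ) : Continuous fun τ : ℝ => (1 + τ * I) ^ k * EE 1 z τ := by
  unfold EE
  fun_prop

lemma int_AA (k : ℕ) (z : ℂ) : Integrable fun τ : ℝ => (1 + τ * I) ^ k * EE 1 z τ :=
  integrable_of_sq (cont_AA k z) (bound_AA k le_rfl)

lemma norm_AA_le (k : ℕ) {z : ℂ} {B : ℝ} (hB : |z.im| ≤ B) :
    ‖AA k z‖ ≤ Real.exp (-z.re) * KK k B * Real.pi := by
  rw [← integral_univ_inv_one_add_sq, ← integral_const_mul]
  exact norm_integral_le_of_norm_le (integrable_inv_one_add_sq.const_mul _)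
    (Eventually.of_forall (bound_AA k hB))

lemma AA_deriv (k : ℕ) (z : ℂ) : HasDerivAt (AA k) (-AA (k + 1) z) z := by
  have h := hasDerivAt_integral_of_dominated_loc_of_deriv_le (μ := volume)
    (F := fun w (τ : ℝ) => (1 + τ * I) ^ k * EE 1 w τ)
    (F' := fun w (τ : ℝ) => -((1 + τ * I) ^ (k + 1) * EE 1 w τ))
    (bound := fun τ => Real.exp (‖z‖ + 1) * KK (k + 1) (‖z‖ + 1) * (1 + τ ^ 2)⁻¹)
    (Metric.ball_mem_nhds z one_pos)
    (Eventually.of_forall fun w => (cont_AA k w).aestronglyMeasurable) (int_AA k z)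
    (cont_AA (k + 1) z).neg.aestronglyMeasurable (Eventually.of_forall fun τ w hw => ?_)
    (integrable_inv_one_add_sq.const_mul _) (Eventually.of_forall fun τ w _ => ?_)
  · rw [integral_neg] at h
    exact h.2
  · have h1 : ‖w‖ ≤ ‖z‖ + 1 := by
      have := norm_sub_norm_le w z
      rw [mem_ball_iff_norm] at hw
      linarith
    rw [norm_neg]
    refine (bound_AA (k + 1) ((abs_im_le_norm w).trans h1) τ).trans ?_
    have h2 : -w.re ≤ ‖z‖ + 1 := (neg_le_abs _).trans ((abs_re_le_norm w).trans h1)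
    have : 0 ≤ KK (k + 1) (‖z‖ + 1) := by unfold KK; positivity
    gcongr
  · have h1 := ((((hasDerivAt_id w).mul_const (1 + τ * I)).const_sub
      ((1 + τ * I) ^ 3 / 3)).cexp).const_mul ((1 + τ * I) ^ k)
    refine h1.congr_deriv ?_
    simp only [EE, id]
    ring

lemma AA_two (z : ℂ) : AA 2 z = z * AA 0 z := by
  have h := integral_eq_zero_of_hasDerivAt_of_integrable (f := fun τ : ℝ => EE 1 z τ)
    (f' := fun τ : ℝ => I * ((1 + τ * I) ^ 2 * EE 1 z τ - z * ((1 + τ * I) ^ 0 * EE 1 z τ)))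
    (fun τ => ?_) (((int_AA 2 z).sub ((int_AA 0 z).const_mul z)).const_mul I)
    (by simpa using int_AA 0 z)
  · rw [integral_const_mul, integral_sub (int_AA 2 z) ((int_AA 0 z).const_mul z),
      integral_const_mul] at h
    exact sub_eq_zero.1 ((mul_eq_zero.1 h).resolve_left I_ne_zero)
  · have h1 : HasDerivAt (fun s : ℝ => (1 + s * I : ℂ)) I τ := by
      simpa using ((ofRealCLM.hasDerivAt (x := τ)).mul_const I).const_add 1
    refine ((((h1.pow 3).div_const 3).sub (h1.const_mul z)).cexp).congr_deriv ?_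
    simp only [EE, Pi.pow_apply, Pi.sub_apply]
    push_cast
    ring

lemma AA_conj (k : ℕ) (z : ℂ) : AA k (conj z) = conj (AA k z) := by
  rw [AA, AA, ← integral_conj, ← integral_neg_eq_self]
  congr 1
  ext τ
  simp [EE, ← exp_conj, map_ofNat]

lemma AA_im (k : ℕ) (x : ℝ) : (AA k x).im = 0 := by
  rw [← conj_eq_iff_im, ← AA_conj, conj_ofReal]

lemma AA_diff (k : ℕ) : Differentiable ℂ (AA k) := fun z => (AA_deriv k z).differentiableAt

lemma AA_shift (z : ℂ) {σ : ℂ} (hσ : 0 < σ.re) : AA 0 z = ∫ τ : ℝ, EE σ z τ := by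
  have key : ∀ a b : ℝ, 0 < a → a ≤ b → ∫ τ : ℝ, EE b z τ = ∫ τ : ℝ, EE a z τ := by
    intro a b ha hab
    have h := shift (f := fun w => cexp ((I * w) ^ 3 / 3 - z * (I * w))) (a := -b) (b := -a)
      (C := Real.exp (b ^ 3 / 3 + b * |z.re|) * (Real.exp (|z.im| ^ 2 / (2 * a)) * (1 + 2 / a)))
      (by linarith) (by fun_prop) fun t y h1 h2 => ?_
    · convert h using 3 with t t <;> simp only [EE] <;> congr 1 <;> push_cast <;>
        rw [show ∀ c : ℂ, I * (t + -c * I) = c + t * I from fun c => by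
          linear_combination (-c) * I_mul_I]
    · have h3 : I * (t + y * I) = (-y : ℝ) + t * I := by
        push_cast
        linear_combination y * I_mul_I
      have h4 := norm_EE (-y) z t
      simp only [h3]
      rw [EE] at h4
      rw [h4, mul_assoc]
      refine le_trans ?_ (mul_le_mul_of_nonneg_left (gauss_le ha t) (Real.exp_pos _).le)
      rw [← Real.exp_add, Real.exp_le_exp]
      have h5 : (-y) ^ 3 ≤ b ^ 3 := pow_le_pow_left₀ (by linarith) (by linarith) 3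
      have h6 : -(-y * z.re) ≤ b * |z.re| :=
        (neg_le_abs _).trans (abs_mul (-y) z.re ▸ mul_le_mul_of_nonneg_right
          (abs_le.2 ⟨by linarith, by linarith⟩) (abs_nonneg _))
      have h7 : t * z.im ≤ |z.im| * |t| := by
        rw [mul_comm |z.im|, ← abs_mul]
        exact le_abs_self _
      have h8 : a * t ^ 2 ≤ -y * t ^ 2 := mul_le_mul_of_nonneg_right (by linarith) (sq_nonneg _)
      linarith
  have h1 : ∫ τ : ℝ, EE σ z τ = ∫ τ : ℝ, EE σ.re z τ := by
    rw [← integral_add_right_eq_self (fun τ : ℝ => EE σ.re z τ) σ.im]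
    congr 1
    ext τ
    have : (σ.re : ℂ) + (τ + σ.im : ℝ) * I = σ + τ * I := by
      push_cast
      linear_combination re_add_im σ
    simp only [EE, this]
  have h2 : AA 0 z = ∫ τ : ℝ, EE (1 : ℝ) z τ := by simp [AA]
  rw [h1, h2]
  rcases le_total σ.re 1 with h | h
  · exact key _ _ hσ h
  · exact (key _ _ one_pos h).symm

end Pool.Agent.H.MP_b46d52_pr
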