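import Pool.Agent.H.MP_b46d52_pr.A

set_option linter.unusedSimpArgs false

open Complex MeasureTheory Filter Topology Set
open scoped ComplexConjugate

namespace Pool.Agent.H.MP_b46d52_pr

lemma lower_sigma {σ : ℂ} (hp : 4 ≤ σ.re) (h1 : σ.re ^ 2 ≤ σ.im ^ 2) (h2 : σ.im ^ 2 ≤ σ.re ^ 2 + 6) :
    σ.re ^ 8 / 24 ≤ ‖AA 0 (σ ^ 2)‖ := by
  set p := σ.re with hpd
  have p0 : 0 < p := by linarith
  have hE : ∀ τ : ℝ, EE σ (σ ^ 2) τ = cexp (-(2 / 3) * σ ^ 3) * (cexp (-σ * τ ^ 2)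
      + cexp (-σ * τ ^ 2) * (cexp (I * (-τ ^ 3 / 3 : ℝ)) - 1)) := by
    intro τ
    rw [mul_sub, mul_one, add_sub_cancel, ← exp_add, ← exp_add, EE]
    congr 1
    push_cast
    linear_combination (σ * τ ^ 2 + τ ^ 3 * I / 3) * I_mul_I
  have hn : ∀ τ : ℝ, ‖cexp (-σ * τ ^ 2)‖ = Real.exp (-p * τ ^ 2) := by
    intro τ
    rw [norm_exp]
    congr 1
    simp [pow_two, hpd]
  have hb : ∀ τ : ℝ, ‖cexp (-σ * τ ^ 2) * (cexp (I * (-τ ^ 3 / 3 : ℝ)) - 1)‖
      ≤ p⁻¹ * Real.exp (-(p / 2) * τ ^ 2) := by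
    intro τ
    rw [norm_mul, hn, show -p * τ ^ 2 = -(p / 2) * τ ^ 2 + -(p / 2 * τ ^ 2) by ring, Real.exp_add,
      mul_comm p⁻¹, mul_assoc]
    refine mul_le_mul_of_nonneg_left ?_ (Real.exp_pos _).le
    have h3 := Real.norm_exp_I_mul_ofReal_sub_one_le (x := -τ ^ 3 / 3)
    rw [Real.exp_neg, inv_mul_le_iff₀ (Real.exp_pos _), ← div_eq_mul_inv, le_div_iff₀ p0]
    refine (mul_le_mul_of_nonneg_right h3 p0.le).trans ?_
    have h4 := Real.quadratic_le_exp_of_nonneg (x := p / 2 * τ ^ 2) (by positivity)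
    rw [Real.norm_eq_abs, abs_div, abs_neg, abs_pow, abs_of_pos (by norm_num : (0 : ℝ) < 3)]
    rw [← sq_abs τ] at h4 ⊢
    have h5 := abs_nonneg τ
    set x := |τ|
    have h6 : 0 ≤ p * (x ^ 2 * (x - 1) ^ 2) := by positivity
    have h7 : 0 ≤ p * (p - 4) * x ^ 4 := mul_nonneg (mul_nonneg p0.le (by linarith)) (by positivity)
    have h8 : 0 ≤ p * x ^ 4 := by positivity
    nlinarith
  have i1 : Integrable fun τ : ℝ => cexp (-σ * τ ^ 2) := integrable_cexp_neg_mul_sq p0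
  have i2 : Integrable fun τ : ℝ => p⁻¹ * Real.exp (-(p / 2) * τ ^ 2) :=
    (integrable_exp_neg_mul_sq (by linarith)).const_mul _
  have i3 : Integrable fun τ : ℝ => cexp (-σ * τ ^ 2) * (cexp (I * (-τ ^ 3 / 3 : ℝ)) - 1) :=
    i2.mono' (Continuous.aestronglyMeasurable (by fun_prop)) (Eventually.of_forall hb)
  have e1 := norm_integral_le_of_norm_le i2 (Eventually.of_forall hb)
  rw [integral_const_mul, integral_gaussian] at e1
  set S := Real.sqrt (Real.pi / (p / 2)) with hS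
  have S0 : 0 ≤ S := Real.sqrt_nonneg _
  have S2 : S ^ 2 = Real.pi / (p / 2) := Real.sq_sqrt (by positivity)
  have hσ : ‖σ‖ ≤ 2 * p := by
    refine le_of_sq_le_sq (by rw [Complex.sq_norm, normSq_apply]; nlinarith) (by linarith)
  have σ0 : 0 < ‖σ‖ := p0.trans_le ((le_abs_self _).trans (abs_re_le_norm σ))
  have e2 : S / 2 ≤ ‖∫ τ : ℝ, cexp (-σ * τ ^ 2)‖ := by
    refine le_of_sq_le_sq ?_ (norm_nonneg _)
    rw [integral_gaussian_complex p0, ← norm_pow, one_div, cpow_ofNat_inv_pow, div_pow, S2,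
      norm_div, norm_real, Real.norm_of_nonneg Real.pi_pos.le, div_div]
    exact div_le_div_of_nonneg_left Real.pi_pos.le σ0 (by linarith)
  have e3 : p⁻¹ ≤ S := by
    rw [hS]
    refine Real.le_sqrt_of_sq_le ?_
    rw [inv_pow, inv_eq_one_div, div_le_div_iff₀ (by positivity) (by positivity)]
    nlinarith [Real.pi_gt_three]
  have e4 : Real.exp (p ^ 3) ≤ ‖cexp (-(2 / 3) * σ ^ 3)‖ := by
    rw [norm_exp, Real.exp_le_exp]
    have : (-(2 / 3) * σ ^ 3).re = -(2 / 3) * (p ^ 3 - 3 * p * σ.im ^ 2) := by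
      simp [pow_succ, hpd]
      ring
    rw [this]
    nlinarith [mul_le_mul_of_nonneg_left h1 p0.le, pow_pos p0 3]
  have e5 : (p ^ 3) ^ 3 / 6 ≤ Real.exp (p ^ 3) := by
    simpa [Nat.factorial] using Real.pow_div_factorial_le_exp (p ^ 3) (by positivity) 3
  rw [AA_shift _ p0]
  simp only [hE]
  rw [integral_const_mul, integral_add i1 i3, norm_mul]
  have e6 := norm_sub_norm_le (∫ τ : ℝ, cexp (-σ * τ ^ 2))
    (-∫ τ : ℝ, cexp (-σ * τ ^ 2) * (cexp (I * (-τ ^ 3 / 3 : ℝ)) - 1))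
  rw [norm_neg, sub_neg_eq_add] at e6
  have e7 : p⁻¹ ≤ 1 / 4 := by
    rw [one_div]
    exact inv_anti₀ (by norm_num) hp
  have e8 : p⁻¹ / 4 ≤ ‖(∫ τ : ℝ, cexp (-σ * τ ^ 2))
      + ∫ τ : ℝ, cexp (-σ * τ ^ 2) * (cexp (I * (-τ ^ 3 / 3 : ℝ)) - 1)‖ := by
    nlinarith [mul_le_mul_of_nonneg_right e7 S0]
  refine le_trans (le_of_eq ?_) (mul_le_mul (e5.trans e4) e8 (by positivity) (norm_nonneg _))
  field_simp
  norm_num

lemma lower {z : ℂ} (h1 : -6 ≤ z.re) (h2 : z.re ≤ 0) (h3 : 38 ≤ |z.im|) :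
    z.im ^ 4 / 1536 ≤ ‖AA 0 z‖ := by
  obtain ⟨σ, hσ, h0⟩ : ∃ σ : ℂ, σ ^ 2 = z ∧ 0 ≤ σ.re := by
    obtain ⟨s, hs⟩ := IsAlgClosed.exists_pow_nat_eq z two_pos
    rcases le_total 0 s.re with h | h
    · exact ⟨s, hs, h⟩
    · exact ⟨-s, by rw [neg_sq, hs], by simpa using h⟩
  subst hσ
  have e1 : (σ ^ 2).re = σ.re ^ 2 - σ.im ^ 2 := by simp [pow_two]
  have e2 : (σ ^ 2).im ^ 2 = 4 * σ.re ^ 2 * σ.im ^ 2 := by
    simp [pow_two]
    ring
  rw [e1] at h1 h2
  have e3 : 38 ^ 2 ≤ (σ ^ 2).im ^ 2 := by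
    rw [← sq_abs (σ ^ 2).im]
    gcongr
  have e4 : (σ ^ 2).im ^ 2 ≤ 4 * σ.re ^ 2 * (σ.re ^ 2 + 6) := by
    rw [e2]
    exact mul_le_mul_of_nonneg_left (by linarith) (by positivity)
  have hp : 4 ≤ σ.re := by
    by_contra h
    have : σ.re ^ 2 ≤ 16 := by nlinarith
    nlinarith [sq_nonneg σ.re]
  have e5 : (σ ^ 2).im ^ 2 ≤ 8 * σ.re ^ 4 := by
    have : 16 ≤ σ.re ^ 2 := by nlinarith
    nlinarith
  refine le_trans ?_ (lower_sigma hp (by linarith) (by linarith))
  have e6 := pow_le_pow_left₀ (sq_nonneg _) e5 2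
  nlinarith

lemma no_seg (z : ℂ) {a b : ℝ} (hab : a < b) (h : ∀ x ∈ Ioo a b, AA 0 (z + x) = 0) : False := by
  have h1 : AnalyticOnNhd ℂ (AA 0) univ := fun w _ => (AA_diff 0).analyticAt w
  set m := (a + b) / 2
  have h2 : Tendsto (fun x : ℝ => z + x) (𝓝[≠] m) (𝓝[≠] (z + m)) := by
    refine tendsto_nhdsWithin_iff.2 ⟨(Continuous.tendsto (by fun_prop) m).mono_left
      nhdsWithin_le_nhds, eventually_nhdsWithin_of_forall fun x hx => ?_⟩
    simpa using hx
  have h3 : ∀ᶠ x : ℝ in 𝓝[≠] m, AA 0 (z + x) = 0 :=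
    (eventually_nhdsWithin_of_eventually_nhds (Ioo_mem_nhds (by simp only [m]; linarith)
      (by simp only [m]; linarith))).mono h
  have h4 := h1.eqOn_zero_of_preconnected_of_frequently_eq_zero isPreconnected_univ (mem_univ _)
    (h2.frequently h3.frequently)
  have h5 := lower (z := 38 * I) (by simp) (by simp) (by simp)
  rw [h4 (mem_univ _)] at h5
  norm_num at h5

lemma mono_of {V V' : ℝ → ℝ} {a b : ℝ} (hd : ∀ x ∈ Icc a b, HasDerivAt V (V' x) x)
    (h0 : ∀ x ∈ Icc a b, 0 ≤ V' x) : MonotoneOn V (Icc a b) :=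
  monotoneOn_of_deriv_nonneg (convex_Icc a b) (fun x hx => (hd x hx).continuousAt.continuousWithinAt)
    (fun x hx => (hd x (interior_subset hx)).differentiableAt.differentiableWithinAt)
    fun x hx => (hd x (interior_subset hx)).deriv ▸ h0 x (interior_subset hx)

lemma flat {V V' : ℝ → ℝ} {a b : ℝ} (hd : ∀ x ∈ Icc a b, HasDerivAt V (V' x) x)
    (h0 : ∀ x ∈ Icc a b, 0 ≤ V' x) (h : V b ≤ V a) : ∀ x ∈ Ioo a b, V' x = 0 := by
  intro x hx
  have hab : a ≤ b := (hx.1.trans hx.2).le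
  have h1 : V =ᶠ[𝓝 x] fun _ => V a := by
    filter_upwards [Icc_mem_nhds hx.1 hx.2] with y hy
    exact le_antisymm ((mono_of hd h0 hy (right_mem_Icc.2 hab) hy.2).trans h)
      (mono_of hd h0 (left_mem_Icc.2 hab) hy hy.1)
  exact (hd x (Ioo_subset_Icc_self hx)).unique ((hasDerivAt_const x (V a)).congr_of_eventuallyEq h1)

lemma flat' {V V' : ℝ → ℝ} (hd : ∀ x, HasDerivAt V (V' x) x) (h0 : ∀ x, 0 ≤ x → 0 ≤ V' x)
    (h : V 0 = 0) (ht : Tendsto V atTop (𝓝 0)) : ∀ x ∈ Ioo (0 : ℝ) 1, V' x = 0 := by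
  refine flat (fun x _ => hd x) (fun x hx => h0 x hx.1) (le_of_le_of_eq (ge_of_tendsto ht ?_) h.symm)
  filter_upwards [eventually_ge_atTop 1] with T hT
  exact mono_of (a := 0) (b := T) (fun x _ => hd x) (fun x hx => h0 x hx.1) ⟨zero_le_one, hT⟩
    ⟨by linarith, le_rfl⟩ hT

lemma AA_line (k : ℕ) (z : ℂ) (x : ℝ) :
    HasDerivAt (fun s : ℝ => AA k (z + s)) (-AA (k + 1) (z + x)) x := by
  have h1 : HasDerivAt (fun s : ℝ => z + s) 1 x := by
    simpa using (ofRealCLM.hasDerivAt (x := x)).const_add z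
  exact ((AA_deriv k (z + x)).comp_of_eq x h1 rfl).congr_deriv (mul_one _)

lemma zero_real {z : ℂ} (hz : AA 0 z = 0) : z.im = 0 ∧ z.re < 0 := by
  have hU : ∀ (w : ℂ) (x : ℝ), HasDerivAt (fun s : ℝ => -AA 1 (w + s) * conj (AA 0 (w + s)))
      ((w + x) * normSq (AA 0 (w + x)) + normSq (AA 1 (w + x))) x := by
    intro w x
    refine ((AA_line 1 w x).neg.mul (AA_line 0 w x).star).congr_deriv ?_
    simp only [Pi.neg_apply, star_def, map_neg, Nat.reduceAdd, AA_two, ← mul_conj]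
    ring
  have hT : ∀ w : ℂ, Tendsto (fun s : ℝ => -AA 1 (w + s) * conj (AA 0 (w + s))) atTop (𝓝 0) := by
    intro w
    have h1 : ∀ k, Tendsto (fun s : ℝ => AA k (w + s)) atTop (𝓝 0) := by
      intro k
      refine squeeze_zero_norm (fun s => norm_AA_le k (B := |w.im|) (by simp)) ?_
      have h2 : Tendsto (fun s : ℝ => Real.exp (-(w + s).re)) atTop (𝓝 0) := by
        simp only [add_re, ofReal_re]
        exact Real.tendsto_exp_neg_atTop_nhds_zero.comp (tendsto_atTop_add_const_left _ _ tendsto_id)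
      simpa using (h2.mul_const _).mul_const _
    simpa using (h1 1).neg.mul (continuous_conj.continuousAt.tendsto.comp (h1 0))
  have key : ∀ w : ℂ, AA 0 w = 0 → ¬ 0 < w.im := by
    intro w hw h
    have h1 := flat' (V := fun s : ℝ => (-AA 1 (w + s) * conj (AA 0 (w + s))).im)
      (V' := fun x => w.im * normSq (AA 0 (w + x)))
      (fun x => (imCLM.hasFDerivAt.comp_hasDerivAt x (hU w x)).congr_deriv (by simp))
      (fun x _ => mul_nonneg h.le (normSq_nonneg _)) (by simp [hw])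
      ((continuous_im.tendsto 0).comp (hT w))
    exact no_seg w zero_lt_one fun x hx =>
      normSq_eq_zero.1 ((mul_eq_zero.1 (h1 x hx)).resolve_left h.ne')
  constructor
  · have h1 := key z hz
    have h2 := key (conj z) (by rw [AA_conj, hz, map_zero])
    rw [conj_im] at h2
    linarith
  · by_contra h
    push Not at h
    have h1 := flat' (V := fun s : ℝ => (-AA 1 (z + s) * conj (AA 0 (z + s))).re)
      (V' := fun x => (z.re + x) * normSq (AA 0 (z + x)) + normSq (AA 1 (z + x)))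
      (fun x => (reCLM.hasFDerivAt.comp_hasDerivAt x (hU z x)).congr_deriv (by simp))
      (fun x hx => add_nonneg (mul_nonneg (by linarith) (normSq_nonneg _)) (normSq_nonneg _))
      (by simp [hz]) ((continuous_re.tendsto 0).comp (hT z))
    refine no_seg z zero_lt_one fun x hx => normSq_eq_zero.1 ?_
    have h2 := h1 x hx
    have h3 := normSq_nonneg (AA 0 (z + x))
    have h4 := normSq_nonneg (AA 1 (z + x))
    have h5 : 0 < z.re + x := by linarith [hx.1]
    nlinarith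

noncomputable def yy (x : ℝ) : ℝ := (AA 0 x).re
noncomputable def yp (x : ℝ) : ℝ := -(AA 1 x).re

lemma yy_deriv (x : ℝ) : HasDerivAt yy (yp x) x := by
  have h := AA_line 0 0 x
  simp only [zero_add] at h
  exact (reCLM.hasFDerivAt.comp_hasDerivAt x h).congr_deriv (by simp [yp])

lemma yp_deriv (x : ℝ) : HasDerivAt yp (x * yy x) x := by
  have h := AA_line 1 0 x
  simp only [zero_add] at h
  exact (reCLM.hasFDerivAt.comp_hasDerivAt x h).neg.congr_deriv (by simp [yy, AA_two])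

lemma yy_zero {x : ℝ} : yy x = 0 ↔ AA 0 x = 0 := by simp [yy, Complex.ext_iff, AA_im]

lemma yy_cont : Continuous yy := continuous_iff_continuousAt.2 fun x => (yy_deriv x).continuousAt

lemma exists_zero : ∃ x ∈ Icc (-1 - Real.pi) (-1), yy x = 0 := by
  have hab : -1 - Real.pi ≤ -1 := by linarith [Real.pi_pos]
  have key : ∀ e : ℝ, (∀ x ∈ Icc (-1 - Real.pi) (-1), 0 < e * yy x) → False := by
    intro e he
    have h1 := mono_of (a := -1 - Real.pi) (b := -1)
      (V := fun x => e * (yy x * Real.cos (x + 1 + Real.pi) - yp x * Real.sin (x + 1 + Real.pi)))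
      (V' := fun x => (-1 - x) * (e * yy x) * Real.sin (x + 1 + Real.pi)) (fun x _ => by
        have h2 : HasDerivAt (fun x : ℝ => x + 1 + Real.pi) 1 x :=
          ((hasDerivAt_id x).add_const 1).add_const _
        refine ((((yy_deriv x).mul h2.cos).sub ((yp_deriv x).mul h2.sin)).const_mul e).congr_deriv ?_
        ring)
      (fun x hx => mul_nonneg (mul_nonneg (by linarith [hx.2]) (he x hx).le)
        (Real.sin_nonneg_of_nonneg_of_le_pi (by linarith [hx.1]) (by linarith [hx.2])))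
      (left_mem_Icc.2 hab) (right_mem_Icc.2 hab) hab
    have h3 := he _ (left_mem_Icc.2 hab)
    have h4 := he _ (right_mem_Icc.2 hab)
    simp only [show -1 - Real.pi + 1 + Real.pi = 0 by ring, show -1 + 1 + Real.pi = Real.pi by ring,
      Real.cos_zero, Real.sin_zero, Real.cos_pi, Real.sin_pi] at h1
    linarith
  by_contra h
  push Not at h
  by_cases h1 : ∀ x ∈ Icc (-1 - Real.pi) (-1), 0 < yy x
  · exact key 1 (by simpa using h1)
  · push Not at h1
    obtain ⟨x, hx, h2⟩ := h1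
    refine key (-1) fun w hw => ?_
    by_contra h3
    obtain ⟨c, hc, h4⟩ := isPreconnected_Icc.intermediate_value hx hw yy_cont.continuousOn
      (show (0 : ℝ) ∈ Icc (yy x) (yy w) from ⟨h2, by linarith⟩)
    exact h c hc h4

theorem first_zero : ∃ a : ℝ, -5 < a ∧ a < 0 ∧ AA 0 a = 0 ∧ AA 1 a ≠ 0 ∧
    ∀ z : ℂ, a - 1 ≤ z.re → AA 0 z = 0 → z = a := by
  obtain ⟨x0, hx0, h0⟩ := exists_zero
  have pi4 := Real.pi_lt_four
  have hK : IsCompact (Icc x0 0 ∩ yy ⁻¹' {0}) :=
    isCompact_Icc.inter_right (isClosed_singleton.preimage yy_cont)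
  obtain ⟨a, ⟨ha1, ha2⟩, ha3⟩ := hK.exists_isGreatest ⟨x0, ⟨le_rfl, by linarith [hx0.2]⟩, h0⟩
  have ha4 : AA 0 a = 0 := yy_zero.1 ha2
  have ha5 : a < 0 := by simpa using (zero_real ha4).2
  have ha6 : -5 < a := by linarith [ha1.1, hx0.1]
  have top : ∀ x, a < x → yy x ≠ 0 := fun x hx h => by
    have h1 : x < 0 := by simpa using (zero_real (yy_zero.1 h)).2
    exact absurd (ha3 ⟨⟨by linarith [ha1.1], h1.le⟩, h⟩) (by linarith)
  refine ⟨a, ha6, ha5, ha4, fun h => ?_, fun z hz h => ?_⟩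
  · have h1 := mono_of (a := a) (b := a + 1)
      (V := fun x => -(Real.exp (-5 * x) * (yy x ^ 2 + yp x ^ 2)))
      (V' := fun x => Real.exp (-5 * x) * (5 * (yy x ^ 2 + yp x ^ 2) - 2 * (1 + x) * yy x * yp x))
      (fun x _ => by
        refine ((((hasDerivAt_id x).const_mul (-5)).exp.mul (((yy_deriv x).pow 2).add
          ((yp_deriv x).pow 2))).neg).congr_deriv ?_
        simp only [id, Pi.add_apply, Pi.pow_apply]
        push_cast
        ring)
      (fun x hx => mul_nonneg (Real.exp_pos _).le (by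
        nlinarith [mul_nonneg (show 0 ≤ 4 - x by linarith [hx.2]) (sq_nonneg (yy x + yp x)),
          mul_nonneg (show 0 ≤ 6 + x by linarith [hx.1]) (sq_nonneg (yy x - yp x))]))
      (left_mem_Icc.2 (by linarith)) (right_mem_Icc.2 (by linarith)) (by linarith)
    have h2 : yy a = 0 := ha2
    have h3 : yp a = 0 := by simp [yp, h]
    simp only [h2, h3] at h1
    have h4 := mul_pos (Real.exp_pos (-5 * (a + 1))) (add_pos_of_pos_of_nonneg
      (sq_pos_of_ne_zero (top (a + 1) (by linarith))) (sq_nonneg (yp (a + 1))))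
    linarith
  · have h1 : z = (z.re : ℂ) := Complex.ext rfl (by simpa using (zero_real h).1)
    rw [h1] at h ⊢
    set b := z.re
    have hb : yy b = 0 := yy_zero.2 h
    rcases lt_trichotomy b a with h2 | h2 | h2
    · exfalso
      have h3 := flat (a := b) (b := a)
        (V := fun x => yy x * yp x + 3 * (Real.tan (3 * (x - (a + b) / 2)) * yy x ^ 2))
        (V' := fun x => (yp x + 3 * Real.tan (3 * (x - (a + b) / 2)) * yy x) ^ 2 + (x + 9) * yy x ^ 2)
        (fun x hx => by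
          have h4 : Real.cos (3 * (x - (a + b) / 2)) ≠ 0 := (Real.cos_pos_of_mem_Ioo
            ⟨by linarith [hx.1, Real.pi_gt_three], by linarith [hx.2, Real.pi_gt_three]⟩).ne'
          have h5 := (Real.hasDerivAt_tan h4).comp x
            (((hasDerivAt_id x).sub_const ((a + b) / 2)).const_mul 3)
          refine (((yy_deriv x).mul (yp_deriv x)).add
            ((h5.mul ((yy_deriv x).pow 2)).const_mul 3)).congr_deriv ?_
          simp only [Function.comp, id, Pi.pow_apply, one_div, ← Real.inv_one_add_tan_sq h4, inv_inv]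
          push_cast
          ring)
        (fun x hx => add_nonneg (sq_nonneg _) (mul_nonneg (by linarith [hx.1]) (sq_nonneg _)))
        (by simp [hb, show yy a = 0 from ha2])
      refine no_seg 0 h2 fun x hx => ?_
      rw [zero_add, ← yy_zero]
      have h4 := h3 x hx
      have h5 : 0 < x + 9 := by linarith [hx.1]
      have h6 := sq_nonneg (yp x + 3 * Real.tan (3 * (x - (a + b) / 2)) * yy x)
      have h7 := sq_nonneg (yy x)
      exact pow_eq_zero_iff two_ne_zero |>.1 (by nlinarith)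
    · rw [h2]
    · exact absurd hb (top b h2)

end Pool.Agent.H.MP_b46d52_pr
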