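import Pool.Agent.H.MP_b46d52_pr.B

set_option linter.unusedSimpArgs false

open Complex MeasureTheory Filter Topology Set
open scoped ComplexConjugate FourierTransform

namespace Pool.Agent.H.MP_b46d52_pr

lemma strip_bound {a : ℝ} (h1 : -5 < a) (h3 : AA 0 a = 0)
    (hD : ∀ z : ℂ, a - 1 ≤ z.re → dslope (AA 0) a z ≠ 0) (hd : Differentiable ℂ (dslope (AA 0) a)) :
    ∃ C : ℝ, 0 ≤ C ∧ ∀ z : ℂ, a - 1 ≤ z.re → z.re ≤ 0 →
      ‖(dslope (AA 0) a z)⁻¹‖ ≤ C * (1 + z.im ^ 2)⁻¹ := by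
  have hK : IsCompact (Icc (a - 1) 0 ×ℂ Icc (-38 : ℝ) 38) := isCompact_Icc.reProdIm isCompact_Icc
  obtain ⟨M, hM⟩ := hK.exists_bound_of_continuousOn (f := fun z => (dslope (AA 0) a z)⁻¹)
    (hd.continuous.continuousOn.inv₀ fun z hz => hD z (mem_reProdIm.1 hz).1.1)
  refine ⟨|M| * (1 + 38 ^ 2) + 6144, by positivity, fun z hz1 hz2 => ?_⟩
  have p1 : 0 < 1 + z.im ^ 2 := by positivity
  rw [← div_eq_mul_inv, le_div_iff₀ p1]
  rcases le_total |z.im| 38 with h | h
  · have h4 := (hM z (mem_reProdIm.2 ⟨⟨hz1, hz2⟩, abs_le.1 h⟩)).trans (le_abs_self M)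
    have h5 : z.im ^ 2 ≤ 38 ^ 2 := by
      rw [← sq_abs]
      gcongr
    have := mul_le_mul h4 (add_le_add_right h5 1) p1.le (abs_nonneg M)
    linarith
  · have h4 := lower (by linarith) hz2 h
    have h5 : AA 0 z = (z - a) * dslope (AA 0) a z := by
      rw [← smul_eq_mul, sub_smul_dslope, h3, sub_zero]
    have h6 : ‖z - a‖ ≤ 6 + |z.im| := by
      refine (norm_le_abs_re_add_abs_im _).trans ?_
      simp only [sub_re, ofReal_re, sub_im, ofReal_im, sub_zero]
      have : |z.re - a| ≤ 6 := abs_le.2 ⟨by linarith, by linarith⟩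
      linarith
    have h7 := norm_pos_iff.2 (hD z hz1)
    rw [h5, norm_mul] at h4
    rw [norm_inv, inv_mul_le_iff₀ h7]
    have h8 : 0 ≤ |M| * (1 + 38 ^ 2) := by positivity
    have h9 := mul_le_mul_of_nonneg_right h6 h7.le
    rw [← sq_abs z.im]
    have e4 : z.im ^ 4 = |z.im| ^ 4 := by rw [← abs_pow, abs_of_nonneg (by positivity)]
    rw [e4] at h4
    set y := |z.im|
    set N := ‖dslope (AA 0) a z‖
    have h10 : (6 + y) * (1 + y ^ 2) ≤ 4 * y ^ 4 := by
      have : 6 + y ≤ 2 * y ^ 2 := by nlinarith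
      have : 1 + y ^ 2 ≤ 2 * y ^ 2 := by nlinarith
      calc _ ≤ (2 * y ^ 2) * (2 * y ^ 2) := by gcongr
        _ = _ := by ring
    have h11 : (6 + y) * (1 + y ^ 2) ≤ (6 + y) * (N * 6144) := by linarith
    have h12 := le_of_mul_le_mul_left h11 (by linarith)
    nlinarith [mul_nonneg h7.le h8]

lemma fourier_norm_le {f : ℝ → ℂ} {C : ℝ} (h : ∀ t, ‖f t‖ ≤ C * (1 + t ^ 2)⁻¹) (s : ℝ) :
    ‖𝓕 f s‖ ≤ C * Real.pi := by
  rw [Real.fourier_real_eq, ← integral_univ_inv_one_add_sq, ← integral_const_mul]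
  exact norm_integral_le_of_norm_le (integrable_inv_one_add_sq.const_mul _)
    (Eventually.of_forall fun t => by simpa using h t)

lemma intF {f : ℝ → ℂ} (hc : Continuous f) (hf : Integrable f) (s : ℝ) :
    Integrable fun v : ℝ => Real.fourierChar (-(v * s)) • f v :=
  hf.mono ((Real.continuous_fourierChar.comp (by fun_prop)).smul hc).aestronglyMeasurable
    (Eventually.of_forall fun v => by simp)

lemma fourier_shift {K : ℂ → ℂ} {b C : ℝ} (hb : 0 ≤ b)
    (hf : DifferentiableOn ℂ K {w | 0 ≤ w.im ∧ w.im ≤ b})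
    (h : ∀ t y : ℝ, 0 ≤ y → y ≤ b → ‖K (t + y * I)‖ ≤ C * (1 + t ^ 2)⁻¹) (s : ℝ) :
    𝓕 (fun t : ℝ => K t) s
      = (Real.exp (2 * Real.pi * b * s) : ℂ) * 𝓕 (fun t : ℝ => K (t + b * I)) s := by
  have h1 := shift (f := fun w => cexp (-2 * Real.pi * w * s * I) * K w) (a := 0) (b := b)
    (C := Real.exp (2 * Real.pi * b * |s|) * C) hb (DifferentiableOn.mul (by fun_prop) hf)
    fun t y h1 h2 => by
      rw [norm_mul, mul_assoc _ C]
      refine mul_le_mul ?_ (h t y h1 h2) (norm_nonneg _) (Real.exp_pos _).le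
      rw [norm_exp, Real.exp_le_exp]
      have : (-2 * (Real.pi : ℂ) * (t + y * I) * s * I).re = 2 * Real.pi * (y * s) := by
        simp
        ring
      rw [this, mul_assoc (2 * Real.pi)]
      exact mul_le_mul_of_nonneg_left ((mul_le_mul_of_nonneg_left (le_abs_self s) h1).trans
        (mul_le_mul_of_nonneg_right h2 (abs_nonneg s))) Real.two_pi_pos.le
  rw [Real.fourier_real_eq_integral_exp_smul, Real.fourier_real_eq_integral_exp_smul,
    ← integral_const_mul]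
  simp only [ofReal_zero, zero_mul, add_zero] at h1
  simp only [smul_eq_mul]
  push_cast
  rw [h1]
  congr 1
  ext t
  rw [← mul_assoc, ← exp_add]
  congr 2
  linear_combination (-2 * Real.pi * b * s) * I_mul_I

theorem asym {κ : ℝ} (k1 : 1 / 2 ≤ κ) (k2 : κ < 1) {C1 : ℝ} (hC1 : C1 ≠ 0) :
    Integrable (fun v : ℝ => (C1 : ℂ) / AA 0 (I * (2 * Real.pi * κ) * v)) ∧
    ∃ α d c C : ℝ, 0 < α ∧ 1 < d ∧ c ≠ 0 ∧
      (∀ s, ‖𝓕 (fun v : ℝ => (C1 : ℂ) / AA 0 (I * (2 * Real.pi * κ) * v)) s‖ ≤ C) ∧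
      ∀ s, ‖𝓕 (fun v : ℝ => (C1 : ℂ) / AA 0 (I * (2 * Real.pi * κ) * v)) s
        * (Real.exp (-α * s) : ℂ) - c‖ ≤ C * Real.exp (d * s) := by
  obtain ⟨a, a1, a2, a3, a4, a5⟩ := first_zero
  have pi3 := Real.pi_gt_three
  have k0 : 0 < κ := by linarith
  set c0 : ℝ := 2 * Real.pi * κ with hc0
  have c1 : 1 ≤ c0 := by nlinarith
  have c2 : (2 * Real.pi * κ : ℂ) = c0 := by rw [hc0]; push_cast; ring
  rw [c2]
  set D := dslope (AA 0) a
  have hd : Differentiable ℂ D := differentiableOn_univ.1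
    ((differentiableOn_dslope univ_mem).2 (AA_diff 0).differentiableOn)
  have hDa : D a = -AA 1 a := by rw [← (AA_deriv 0 a).deriv]; exact dslope_same _ _
  have hAD : ∀ z, AA 0 z = (z - a) * D z := fun z => by
    rw [← smul_eq_mul, sub_smul_dslope, a3, sub_zero]
  have hD : ∀ z : ℂ, a - 1 ≤ z.re → D z ≠ 0 := fun z hz h => by
    have h1 := a5 z hz (by rw [hAD, h, mul_zero])
    rw [h1, hDa] at h
    exact a4 (neg_eq_zero.1 h)
  obtain ⟨C, C0, hC⟩ := strip_bound a1 a3 hD hd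
  let K : ℂ → ℂ := fun w => (D (I * c0 * w))⁻¹
  have hre : ∀ w : ℂ, (I * c0 * w).re = -(c0 * w.im) := fun w => by simp
  have hst : ∀ y : ℝ, y ≤ (1 - a) / c0 → a - 1 ≤ -(c0 * y) := fun y hy => by
    rw [le_div_iff₀ (by linarith)] at hy
    linarith
  have hKd : ∀ b ≤ (1 - a) / c0, DifferentiableOn ℂ K {w | 0 ≤ w.im ∧ w.im ≤ b} := fun b hb =>
    (hd.comp (by fun_prop)).differentiableOn.inv fun w hw => hD _ (hre w ▸ hst _ (hw.2.trans hb))
  have hKb : ∀ t y : ℝ, 0 ≤ y → y ≤ (1 - a) / c0 → ‖K (t + y * I)‖ ≤ C * (1 + t ^ 2)⁻¹ := by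
    intro t y h1 h2
    refine (hC _ (by rw [hre]; simpa using hst y h2)
      (by rw [hre]; simpa using mul_nonneg (by linarith) h1)).trans ?_
    refine mul_le_mul_of_nonneg_left (inv_anti₀ (by positivity) ?_) C0
    have : (I * c0 * (t + y * I)).im = c0 * t := by simp
    rw [this, mul_pow]
    nlinarith [sq_nonneg t, mul_le_mul c1 c1 zero_le_one (by linarith : 0 ≤ c0)]
  have y0 : 0 ≤ -a / c0 := div_nonneg (by linarith) (by linarith)
  have y1 : -a / c0 ≤ (1 - a) / c0 := div_le_div_of_nonneg_right (by linarith) (by linarith)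
  have hKc : ∀ y : ℝ, 0 ≤ y → y ≤ (1 - a) / c0 → Continuous fun t : ℝ => K (t + y * I) :=
    fun y h1 h2 => (hKd _ le_rfl).continuousOn.comp_continuous (by fun_prop) fun t => by
      simp [h1, h2]
  have hK0 : ∀ t : ℝ, ‖K t‖ ≤ C * (1 + t ^ 2)⁻¹ := fun t => by
    simpa using hKb t 0 le_rfl (y0.trans y1)
  have hK0c : Continuous fun t : ℝ => K t := by simpa using hKc 0 le_rfl (y0.trans y1)
  set φ : ℝ → ℂ := fun v => (C1 : ℂ) / AA 0 (I * c0 * v) with hφ
  have hza : ∀ v : ℝ, -a ≤ ‖I * c0 * v - a‖ ∧ |v| ≤ ‖I * c0 * v - a‖ := fun v => by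
    constructor
    · simpa using re_le_norm (I * c0 * v - a)
    · refine le_trans ?_ (abs_im_le_norm _)
      have : (I * c0 * v - a).im = c0 * v := by simp
      rw [this, abs_mul, abs_of_nonneg (by linarith : 0 ≤ c0)]
      exact le_mul_of_one_le_left (abs_nonneg v) c1
  have hz0 : ∀ v : ℝ, I * c0 * v - a ≠ 0 := fun v =>
    norm_pos_iff.1 ((neg_pos.2 a2).trans_le (hza v).1)
  have hφK : ∀ v : ℝ, φ v = C1 * (I * c0 * v - a)⁻¹ * K v := fun v => by
    simp only [hφ, K, hAD, div_eq_mul_inv, mul_inv, mul_assoc]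
  have hφc : Continuous φ := by
    rw [funext hφK]
    exact (continuous_const.mul (Continuous.inv₀ (by fun_prop) hz0)).mul hK0c
  have hφb : ∀ v, ‖φ v‖ ≤ ‖(C1 : ℂ)‖ * (-a)⁻¹ * C * (1 + v ^ 2)⁻¹ := fun v => by
    rw [hφK, norm_mul, norm_mul, norm_inv, mul_assoc _ C]
    have := inv_anti₀ (neg_pos.2 a2) (hza v).1
    have := hK0 v
    have := inv_pos.2 (neg_pos.2 a2)
    gcongr
  have iφ := integrable_of_sq hφc hφb
  have iφ' : Integrable fun v : ℝ => v • φ v := by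
    refine integrable_of_sq (C := ‖(C1 : ℂ)‖ * C) (continuous_id.smul hφc) fun v => ?_
    rw [norm_smul, hφK, norm_mul, norm_mul, norm_inv, Real.norm_eq_abs]
    have h1 : |v| * ‖I * c0 * v - a‖⁻¹ ≤ 1 :=
      mul_inv_le_one_of_le₀ (hza v).2 (norm_nonneg _)
    calc _ = ‖(C1 : ℂ)‖ * ((|v| * ‖I * c0 * v - a‖⁻¹) * ‖K v‖) := by ring
      _ ≤ ‖(C1 : ℂ)‖ * (1 * (C * (1 + v ^ 2)⁻¹)) := by
        have := hK0 v
        gcongr
      _ = _ := by ring
  set α := -a / κ with hα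
  have α0 : 0 < α := div_pos (by linarith) k0
  have d1 : 1 < κ⁻¹ := one_lt_inv₀ k0 |>.2 k2
  set H0 := 𝓕 fun t : ℝ => K (t + (-a / c0 : ℝ) * I) with hH0
  have e0 : ∀ s, 𝓕 (fun t : ℝ => K t) s = (Real.exp (α * s) : ℂ) * H0 s := fun s => by
    rw [fourier_shift y0 (hKd _ y1) (fun t y h1 h2 => hKb t y h1 (h2.trans y1)) s]
    congr 4
    rw [hα, hc0]
    field_simp
  have b1 : ∀ s, ‖H0 s‖ ≤ C * Real.pi * Real.exp (-α * s) := fun s => by
    have h1 := fourier_norm_le hK0 s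
    rw [e0, norm_mul, norm_real, Real.norm_of_nonneg (Real.exp_pos _).le] at h1
    rw [neg_mul, Real.exp_neg, ← div_eq_mul_inv, le_div_iff₀ (Real.exp_pos _)]
    linarith
  have b2 : ∀ s, ‖H0 s‖ ≤ C * Real.pi * Real.exp (κ⁻¹ * s) := fun s => by
    have h1 := fourier_norm_le (fun t => hKb t _ (y0.trans y1) le_rfl) s
    have h2 := congrArg norm (fourier_shift (y0.trans y1) (hKd _ le_rfl) hKb s)
    have h3 : 2 * Real.pi * ((1 - a) / c0) * s = α * s + κ⁻¹ * s := by
      rw [hα, hc0]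
      field_simp
      ring
    rw [e0, norm_mul, norm_mul, norm_real, norm_real, Real.norm_of_nonneg (Real.exp_pos _).le,
      Real.norm_of_nonneg (Real.exp_pos _).le, h3, Real.exp_add, mul_assoc] at h2
    rw [mul_left_cancel₀ (Real.exp_pos _).ne' h2, mul_comm]
    exact mul_le_mul_of_nonneg_right h1 (Real.exp_pos _).le
  have iK : Integrable fun t : ℝ => K (t + (-a / c0 : ℝ) * I) :=
    integrable_of_sq (hKc _ y0 y1) fun t => hKb t _ y0 y1
  have cH : Continuous H0 := VectorFourier.fourierIntegral_continuous Real.continuous_fourierChar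
    (by fun_prop) iK
  have iH1 : ∀ s, IntegrableOn H0 (Iic s) := fun s =>
    ((integrableOn_exp_mul_Iic (by linarith) s).const_mul (C * Real.pi)).mono'
      cH.aestronglyMeasurable (Eventually.of_forall b2)
  have iH2 : ∀ s, IntegrableOn H0 (Ioi s) := fun s =>
    ((integrableOn_exp_mul_Ioi (neg_neg_of_pos α0) s).const_mul (C * Real.pi)).mono'
      cH.aestronglyMeasurable (Eventually.of_forall b1)
  have iH : Integrable H0 := by
    rw [← integrableOn_univ, ← Iic_union_Ioi (a := 0)]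
    exact (iH1 0).union (iH2 0)
  have intH : ∫ s, H0 s = (-AA 1 a)⁻¹ := by
    have h1 := iK.fourierInv_fourier_eq iH (v := 0) (hKc _ y0 y1).continuousAt
    rw [Real.fourierInv_eq'] at h1
    simp only [inner_zero_right, mul_zero, ofReal_zero, zero_mul, exp_zero, one_smul,
      zero_add] at h1
    rw [← hDa, hH0, h1]
    simp only [K]
    congr 2
    have : (c0 : ℂ) ≠ 0 := by exact_mod_cast (by linarith : c0 ≠ 0)
    push_cast
    field_simp
    linear_combination (-(a : ℂ)) * I_mul_I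
  have kc : (κ : ℂ) ≠ 0 := by exact_mod_cast k0.ne'
  have hJ : ∀ s : ℝ, HasDerivAt (fun s : ℝ => 𝓕 φ s * (Real.exp (-α * s) : ℂ))
      (-(C1 / κ) * H0 s) s := by
    intro s
    have h1 : HasDerivAt (fun s : ℝ => (Real.exp (-α * s) : ℂ)) ((Real.exp (-α * s) * -α : ℝ) : ℂ) s := by
      simpa using ((hasDerivAt_id s).const_mul (-α)).exp.ofReal_comp
    refine ((Real.hasDerivAt_fourier iφ iφ' s).mul h1).congr_deriv ?_
    have h2 : 𝓕 (fun x : ℝ => (-2 * Real.pi * I * x) • φ x) s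
        = α * 𝓕 φ s + -(C1 / κ) * 𝓕 (fun t : ℝ => K t) s := by
      simp only [Real.fourier_real_eq, ← integral_const_mul]
      rw [← integral_add]
      · congr 1
        ext v
        simp only [Circle.smul_def, smul_eq_mul, hφK, hα]
        have h4 : (-2 * Real.pi * I * v : ℂ) = -(I * c0 * v) * (κ : ℂ)⁻¹ := by
          rw [← c2]
          field_simp
        rw [h4]
        push_cast
        linear_combination (-((Real.fourierChar (-(v * s)) : Circle) : ℂ) * C1 * K v * (κ : ℂ)⁻¹)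
          * mul_inv_cancel₀ (hz0 v)
      · exact (intF hφc iφ s).const_mul _
      · exact (intF hK0c (integrable_of_sq hK0c hK0) s).const_mul _
    rw [h2, e0]
    have h3 : (Real.exp (α * s) : ℂ) * (Real.exp (-α * s) : ℂ) = 1 := by
      rw [← ofReal_mul, ← Real.exp_add]
      simp
    push_cast at h3 ⊢
    linear_combination (-(C1 / κ) * H0 s) * h3
  have hG := fourier_norm_le hφb
  have hlim : Tendsto (fun s : ℝ => 𝓕 φ s * (Real.exp (-α * s) : ℂ)) atTop (𝓝 0) := by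
    refine squeeze_zero_norm (fun s => ?_) (by
      simpa using (Real.tendsto_exp_atBot.comp
        (tendsto_id.const_mul_atTop_of_neg (neg_neg_of_pos α0))).const_mul
        (‖(C1 : ℂ)‖ * (-a)⁻¹ * C * Real.pi))
    rw [norm_mul, norm_real, Real.norm_of_nonneg (Real.exp_pos _).le]
    simpa using mul_le_mul_of_nonneg_right (hG s) (Real.exp_pos (-α * s)).le
  have A1 : AA 1 a = ((AA 1 a).re : ℂ) := Complex.ext rfl (by simp [AA_im])
  refine ⟨iφ, α, κ⁻¹, C1 / κ * (-(AA 1 a).re)⁻¹,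
    max (‖(C1 : ℂ)‖ * (-a)⁻¹ * C * Real.pi) (‖(C1 / κ : ℂ)‖ * (C * Real.pi)), α0, d1, ?_,
    fun s => (hG s).trans (le_max_left _ _), fun s => ?_⟩
  · refine mul_ne_zero (div_ne_zero hC1 k0.ne') (inv_ne_zero (neg_ne_zero.2 fun h => a4 ?_))
    rw [A1, h, ofReal_zero]
  · have h1 := integral_Ioi_of_hasDerivAt_of_tendsto' (a := s) (fun x _ => hJ x)
      ((iH2 s).const_mul _) hlim
    have h2 := intervalIntegral.integral_Iic_add_Ioi (iH1 s) (iH2 s)
    rw [integral_const_mul] at h1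
    have h3 : 𝓕 φ s * (Real.exp (-α * s) : ℂ) - (C1 / κ * (-(AA 1 a).re)⁻¹ : ℝ)
        = -(C1 / κ) * ∫ x in Iic s, H0 x := by
      push_cast at h1 ⊢
      rw [← A1, ← intH, ← h2]
      linear_combination h1
    have h4 := norm_integral_le_of_norm_le (μ := volume.restrict (Iic s))
      ((integrableOn_exp_mul_Iic (by linarith : 0 < κ⁻¹) s).const_mul (C * Real.pi))
      (Eventually.of_forall b2)
    rw [integral_const_mul, integral_exp_mul_Iic (by linarith)] at h4
    have h5 : Real.exp (κ⁻¹ * s) / κ⁻¹ ≤ Real.exp (κ⁻¹ * s) := div_le_self (Real.exp_pos _).le d1.le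
    rw [h3, norm_mul, norm_neg]
    refine le_trans ?_ (mul_le_mul_of_nonneg_right (le_max_right _ _) (Real.exp_pos _).le)
    rw [mul_assoc]
    refine mul_le_mul_of_nonneg_left (h4.trans ?_) (norm_nonneg _)
    exact mul_le_mul_of_nonneg_left h5 (by positivity)

end Pool.Agent.H.MP_b46d52_pr
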