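import Pool.Agent.H.MP_b46d52_pr.C

set_option linter.unusedSimpArgs false

open Complex MeasureTheory Filter Topology Set
open scoped ComplexConjugate FourierTransform ContDiff

namespace Pool.Agent.H.MP_b46d52_pr

lemma cm_ineq {φ : ℝ → ℝ} (h : CMOn2 φ) {w : ℝ} (hw : 10 / 3 < w) :
    |φ (10 / 3) - φ w| ≤ 2 * w * |φ (5 / 2) - φ (10 / 3)| := by
  have h1 : DifferentiableOn ℝ φ (Ioi 2) := h.1.differentiableOn (by simp)
  have h2 : DifferentiableOn ℝ (deriv φ) (Ioi 2) :=
    (h.1.deriv_of_isOpen (m := ∞) isOpen_Ioi (by simp)).differentiableOn (by simp)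
  have h3 : ConvexOn ℝ (Ioi 2) φ := convexOn_of_deriv2_nonneg' (convex_Ioi 2) h1 h2 fun x hx => by
    simpa [iteratedDeriv_eq_iterate] using h.2 2 x hx
  have h4 : AntitoneOn φ (Ioi 2) := antitoneOn_of_deriv_nonpos (convex_Ioi 2) h1.continuousOn
    (h1.mono interior_subset) fun x hx => by simpa using h.2 1 x (interior_subset hx)
  have m1 : (5 / 2 : ℝ) ∈ Ioi 2 := by norm_num
  have m2 : (10 / 3 : ℝ) ∈ Ioi 2 := by norm_num
  have m3 : w ∈ Ioi (2 : ℝ) := by simp only [mem_Ioi]; linarith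
  have h5 := h3.slope_mono_adjacent m1 m3 (by norm_num : (5 / 2 : ℝ) < 10 / 3) hw
  have h6 := h4 m2 m3 hw.le
  have h7 := h4 m1 m2 (by norm_num)
  rw [div_le_div_iff₀ (by norm_num) (by linarith)] at h5
  rw [abs_of_nonneg (by linarith), abs_of_nonneg (by linarith)]
  nlinarith

lemma not_HM {g : ℝ → ℝ} {α d c C : ℝ} (hα : 0 < α) (hd : 1 < d) (hc : c ≠ 0)
    (h1 : ∀ s, |g s| ≤ C) (h2 : ∀ s, |g s * Real.exp (-α * s) - c| ≤ C * Real.exp (d * s)) :
    ¬ HM fun x => g (Real.log x) / x := by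
  intro hm
  set J : ℝ → ℝ := fun s => g s * Real.exp (-α * s) with hJ
  have t1 : ∀ t, Tendsto (fun A => (J (A + t) - c) * Real.exp (-A)) atBot (𝓝 0) := by
    intro t
    have h3 := (Real.tendsto_exp_atBot.comp
      (tendsto_id.const_mul_atBot (sub_pos.2 hd))).const_mul (C * Real.exp (d * t))
    rw [mul_zero] at h3
    refine squeeze_zero_norm (fun A => ?_) h3
    rw [Real.norm_eq_abs, abs_mul, abs_of_pos (Real.exp_pos _)]
    refine (mul_le_mul_of_nonneg_right (h2 _) (Real.exp_pos _).le).trans (le_of_eq ?_)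
    simp only [Function.comp, id, mul_assoc, ← Real.exp_add]
    congr 2
    ring
  have t2 : Tendsto J atBot (𝓝 c) := by
    have h3 := ((t1 0).mul Real.tendsto_exp_atBot).add_const c
    simp only [add_zero, mul_zero, zero_add, mul_assoc, ← Real.exp_add, neg_add_cancel,
      Real.exp_zero, mul_one, sub_add_cancel] at h3
    exact h3
  have t3 : ∀ t, Tendsto (fun A => J (A + t)) atBot (𝓝 c) := fun t =>
    t2.comp (tendsto_atBot_add_const_right _ _ tendsto_id)
  have t4 : ∀ t, Tendsto (fun A => (J (A + t) * J (A + -t) - c * c) * Real.exp (-A)) atBot (𝓝 0) := by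
    intro t
    have h3 := ((t1 t).mul (t3 (-t))).add ((t1 (-t)).const_mul c)
    rw [zero_mul, mul_zero, add_zero] at h3
    exact h3.congr fun A => by ring
  have key : ∀ s, J s = c := by
    intro s
    have l1 : Tendsto (fun A => |J (A + Real.log 3) * J (A + -Real.log 3) - J s * J (A + A + -s)|)
        atBot (𝓝 |c * c - J s * c|) := (((t3 _).mul (t3 _)).sub
      (((t3 (-s)).comp (tendsto_id.atBot_add_atBot tendsto_id)).const_mul _)).abs
    have l2 := ((t4 (Real.log 2)).sub (t4 (Real.log 3))).abs.const_mul (4 * Real.exp s)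
    rw [sub_zero, abs_zero, mul_zero] at l2
    have l3 := le_of_tendsto_of_tendsto l1 l2 (by
      filter_upwards [eventually_le_atBot (s - 3)] with A hA
      obtain ⟨φ, hφ, hv⟩ := hm (Real.exp A) (Real.exp_pos A)
      have e1 : ∀ t, 0 < t → φ (Real.exp t + (Real.exp t)⁻¹)
          = J (A + t) * J (A + -t) * Real.exp (2 * (α - 1) * A) := by
        intro t ht
        rw [hv _ (Real.one_lt_exp_iff.2 ht), ← Real.exp_add, ← Real.exp_sub]
        simp only [Real.log_exp, hJ, div_eq_mul_inv, ← Real.exp_neg, sub_eq_add_neg]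
        have e2 : Real.exp (-(A + t)) * Real.exp (-(A + -t)) = Real.exp (-α * (A + t))
            * Real.exp (-α * (A + -t)) * Real.exp (2 * (α + -1) * A) := by
          simp only [← Real.exp_add]
          congr 1
          ring
        linear_combination (g (A + t) * g (A + -t)) * e2
      have e2 := e1 (Real.log 2) (Real.log_pos (by norm_num))
      have e3 := e1 (Real.log 3) (Real.log_pos (by norm_num))
      have e4 := e1 (s - A) (by linarith)
      rw [Real.exp_log (by norm_num), show (2 : ℝ) + 2⁻¹ = 5 / 2 by norm_num] at e2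
      rw [Real.exp_log (by norm_num), show (3 : ℝ) + 3⁻¹ = 10 / 3 by norm_num] at e3
      have e5 := Real.add_one_le_exp (s - A)
      have e6 : (Real.exp (s - A))⁻¹ ≤ 1 := inv_le_one_of_one_le₀ (by linarith)
      have e7 := inv_pos.2 (Real.exp_pos (s - A))
      have e8 := cm_ineq hφ (w := Real.exp (s - A) + (Real.exp (s - A))⁻¹) (by linarith)
      rw [e2, e3, e4, ← sub_mul, ← sub_mul, abs_mul, abs_mul, abs_of_pos (Real.exp_pos _),
        ← mul_assoc (2 * _), show A + (s - A) = s by ring, show A + -(s - A) = A + A + -s by ring] at e8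
      refine (le_of_mul_le_mul_right e8 (Real.exp_pos _)).trans ?_
      rw [← sub_mul, abs_mul, abs_of_pos (Real.exp_pos _), sub_sub_sub_cancel_right,
        mul_comm _ (Real.exp (-A)), ← mul_assoc (4 * _), mul_assoc 4, ← Real.exp_add, ← sub_eq_add_neg s A]
      exact mul_le_mul_of_nonneg_right (by linarith) (abs_nonneg _))
    have l4 : (c - J s) * c = 0 := by
      rw [sub_mul]
      exact abs_nonpos_iff.1 l3
    linarith [(mul_eq_zero.1 l4).resolve_right hc]
  have t5 : Tendsto J atTop (𝓝 0) := by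
    have h3 := (Real.tendsto_exp_atBot.comp
      (tendsto_id.const_mul_atTop_of_neg (neg_neg_of_pos hα))).const_mul C
    rw [mul_zero] at h3
    refine squeeze_zero_norm (fun s => ?_) h3
    rw [Real.norm_eq_abs, abs_mul, abs_of_pos (Real.exp_pos _)]
    exact mul_le_mul_of_nonneg_right (h1 s) (Real.exp_pos _).le
  rw [funext key] at t5
  exact hc (tendsto_nhds_unique tendsto_const_nhds t5)

lemma ghat_eq (v : ℝ) : ghat (2 * Real.pi * v) = (((2 : ℝ) ^ (1 / 3 : ℝ) * (2 * Real.pi) : ℝ) : ℂ)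
    / AA 0 (I * (2 * Real.pi * ((2 : ℝ) ^ (-1 / 3 : ℝ) : ℝ)) * v) := by
  rw [ghat, Ai_eq, ofReal_mul, ofReal_mul ((2 : ℝ) ^ (1 / 3 : ℝ)), ofReal_mul, ofReal_ofNat,
    div_mul_eq_div_div, div_inv_eq_mul]
  congr 2
  ring

lemma kap : 1 / 2 ≤ (2 : ℝ) ^ (-1 / 3 : ℝ) ∧ (2 : ℝ) ^ (-1 / 3 : ℝ) < 1 := by
  refine ⟨?_, Real.rpow_lt_one_of_one_lt_of_neg (by norm_num) (by norm_num)⟩
  rw [one_div, ← Real.rpow_neg_one]
  exact Real.rpow_le_rpow_of_exponent_le (by norm_num) (by norm_num)

lemma gChernoff_eq (s : ℝ) : gChernoff s = (𝓕 (fun v : ℝ => ghat (2 * Real.pi * v)) s).re := by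
  have h := Measure.integral_comp_mul_left (fun l : ℝ => cexp (-(I * l * s)) * ghat l) (2 * Real.pi)
  rw [abs_of_pos (inv_pos.2 Real.two_pi_pos), real_smul] at h
  rw [gChernoff, Real.fourier_real_eq_integral_exp_smul]
  push_cast at h ⊢
  rw [← h]
  congr 2
  ext v
  rw [smul_eq_mul]
  congr 2
  ring

theorem main1 : ¬ HM fun x => gChernoff (Real.log x) / x := by
  obtain ⟨-, α, d, c, C, h1, h2, h3, h4, h5⟩ := asym kap.1 kap.2
    (C1 := (2 : ℝ) ^ (1 / 3 : ℝ) * (2 * Real.pi)) (by positivity)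
  simp only [← ghat_eq] at h4 h5
  refine not_HM (C := C) h1 h2 h3 (fun s => ?_) fun s => ?_
  · rw [gChernoff_eq]
    exact (abs_re_le_norm _).trans (h4 s)
  · rw [gChernoff_eq]
    refine le_trans (le_of_eq ?_) ((abs_re_le_norm _).trans (h5 s))
    rw [sub_re, re_mul_ofReal, ofReal_re]

theorem main2 (g : ℝ → ℝ) (hc : Continuous g) (hi : Integrable g)
    (h : ∀ l : ℝ, ∫ s : ℝ, cexp (I * l * s) * g s = ghat l) : g = gChernoff := by
  have i1 := (asym kap.1 kap.2 (C1 := (2 : ℝ) ^ (1 / 3 : ℝ) * (2 * Real.pi)) (by positivity)).1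
  simp only [← ghat_eq] at i1
  have h1 : 𝓕⁻ (fun s : ℝ => (g s : ℂ)) = fun v : ℝ => ghat (2 * Real.pi * v) := by
    ext v
    rw [Real.fourierInv_eq', ← h]
    congr 1
    ext s
    simp only [RCLike.inner_apply, conj_trivial, smul_eq_mul]
    push_cast
    congr 2
    ring
  have h2 : Integrable (𝓕 fun s : ℝ => (g s : ℂ)) := by
    rw [← h1] at i1
    have h3 := i1.comp_neg
    simpa only [Real.fourierInv_eq_fourier_neg, neg_neg] using h3
  have h4 := (continuous_ofReal.comp hc).fourier_fourierInv_eq hi.ofReal h2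
  ext s
  rw [gChernoff_eq, ← h1]
  exact (congrArg re (congrFun h4 s)).symm

end Pool.Agent.H.MP_b46d52_pr
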