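import Mathlib

open Complex
open scoped ContDiff

namespace Pool.Agent.H.MP_b46d52_pr

/-- The Airy function: the contour integral `(1 / 2 pi i) int exp (t^3/3 - z t) dt` taken upwards
along the line `Re t = 1`. -/
noncomputable def Ai (z : ℂ) : ℂ :=
  (2 * Real.pi : ℂ)⁻¹ * ∫ τ : ℝ, cexp ((1 + τ * I) ^ 3 / 3 - z * (1 + τ * I))

/-- The function `2^(1/3) / Ai (i 2^(-1/3) l)`. -/
noncomputable def ghat (l : ℝ) : ℂ :=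
  ((2 : ℝ) ^ (1 / 3 : ℝ) : ℝ) / Ai (I * ((2 : ℝ) ^ (-1 / 3 : ℝ) : ℝ) * l)

/-- The inverse Fourier integral of `ghat`. -/
noncomputable def gChernoff (s : ℝ) : ℝ :=
  ((2 * Real.pi : ℂ)⁻¹ * ∫ l : ℝ, cexp (-(I * l * s)) * ghat l).re

/-- Completely monotone on `(2, infinity)`. -/
def CMOn2 (φ : ℝ → ℝ) : Prop :=
  ContDiffOn ℝ ∞ φ (Set.Ioi 2) ∧ ∀ (n : ℕ), ∀ w > (2 : ℝ), 0 ≤ (-1) ^ n * iteratedDeriv n φ w

/-- Hyperbolically completely monotone. -/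
def HM (p : ℝ → ℝ) : Prop :=
  ∀ u > (0 : ℝ), ∃ φ : ℝ → ℝ, CMOn2 φ ∧ ∀ v > (1 : ℝ), φ (v + v⁻¹) = p (u * v) * p (u / v)

end Pool.Agent.H.MP_b46d52_pr
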